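import Mathlib
import Pool.Agent.Lib.MP_e6ed9e_al.Defs

/-!
# MP_e6ed9e_al : groups of finite classical polar spaces are not spreading

Definitions and the statements of the modules.  Every module takes the statements that it uses as
hypotheses.
-/

namespace PolarSp

open Module SpreadPerm

noncomputable section

/-! ## 1. Classical geometries -/

/-- Singular vectors and perpendicularity. -/
structure Geo (V : Type) where
  S : V → Prop
  P : V → V → Prop

section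

variable {F V : Type} [Field F] [AddCommGroup V] [Module F V]

/-- The geometry of an alternating form: all vectors are singular. -/
def altGeo (B : V →ₗ[F] V →ₗ[F] F) : Geo V := ⟨fun _ => True, fun x y => B x y = 0⟩

/-- The geometry of a quadratic form. -/
def quadGeo (Q : QuadraticForm F V) : Geo V :=
  ⟨fun x => Q x = 0, fun x y => QuadraticMap.polar Q x y = 0⟩

/-- The geometry of a hermitian form. -/
def hermGeo {σ : F →+* F} (h : V →ₗ[F] V →ₛₗ[σ] F) : Geo V :=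
  ⟨fun x => h x x = 0, fun x y => h x y = 0⟩

/-- The nondegenerate alternating, quadratic and hermitian forms. -/
inductive Classical (F : Type) {V : Type} [Field F] [AddCommGroup V] [Module F V] :
    Geo V → Prop
  | alt (B : V →ₗ[F] V →ₗ[F] F) (hB : ∀ x, B x x = 0) (hn : ∀ x, (∀ y, B x y = 0) → x = 0) :
      Classical F (altGeo B)
  | quad (Q : QuadraticForm F V)
      (hn : ∀ x, Q x = 0 → (∀ y, QuadraticMap.polar Q x y = 0) → x = 0) :
      Classical F (quadGeo Q)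
  | herm (σ : F →+* F) (h2 : ∀ a, σ (σ a) = a) (h1 : ∃ a, σ a ≠ a)
      (h : V →ₗ[F] V →ₛₗ[σ] F) (hh : ∀ x y, h y x = σ (h x y))
      (hn : ∀ x, (∀ y, h x y = 0) → x = 0) : Classical F (hermGeo h)

/-- A totally singular subspace. -/
def Geo.TS (g : Geo V) (M : Submodule F V) : Prop := ∀ x ∈ M, g.S x ∧ ∀ y ∈ M, g.P x y

/-- The totally singular subspaces have dimension at most `k`. -/
def Geo.Idx (F : Type) {V : Type} [Field F] [AddCommGroup V] [Module F V] (g : Geo V) (k : ℕ) :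
    Prop := ∀ M : Submodule F V, g.TS M → finrank F M ≤ k

/-- The rules that the three kinds of forms have in common. -/
structure Geo.Ax (F : Type) {V : Type} [Field F] [AddCommGroup V] [Module F V] (g : Geo V) :
    Prop where
  S0 : g.S 0
  Ssmul : ∀ (c : F) (x : V), g.S x → g.S (c • x)
  Sadd : ∀ x y, g.S x → g.S y → g.P x y → g.S (x + y)
  Pself : ∀ x, g.S x → g.P x x
  Psymm : ∀ x y, g.P x y → g.P y x
  P0 : ∀ x, g.P 0 x
  Psmul : ∀ (c : F) (x y : V), g.P x y → g.P (c • x) y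
  Padd : ∀ x y z, g.P x z → g.P y z → g.P (x + y) z

/-- A function on the vectors, constant on points, at least `-1`, with sum zero on the totally
singular subspaces of dimension `k`, which is not zero at some vector of `T`. -/
def Geo.Good (F : Type) {V : Type} [Field F] [AddCommGroup V] [Module F V] (g : Geo V) (k : ℕ)
    (T : Set V) : Prop :=
  ∃ v : V → ℤ, (∀ c : F, c ≠ 0 → ∀ x, v (c • x) = v x) ∧ (∀ x, v x ≠ 0 → x ≠ 0 ∧ g.S x) ∧
    (∀ x, -1 ≤ v x) ∧ (∃ x ∈ T, v x ≠ 0) ∧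
    ∀ M : Submodule F V, g.TS M → finrank F M = k → ∑ᶠ x : M, v (x : V) = 0

/-- The singular points. -/
def Pt (F : Type) {V : Type} [Field F] [AddCommGroup V] [Module F V] (g : Geo V) : Type :=
  {p : Projectivization F V // g.S p.rep}

instance (F : Type) {V : Type} [Field F] [AddCommGroup V] [Module F V] (g : Geo V) [Finite V] :
    Finite (Pt F g) := Subtype.finite

instance instFintypePt (F : Type) {V : Type} [Field F] [AddCommGroup V] [Module F V] (g : Geo V)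
    [Finite V] : Fintype (Pt F g) := Fintype.ofFinite _

end

/-! ## 2. The theorem -/

/-- MAIN: no group of automorphisms, transitive on the points, of a finite classical polar space
of rank at least 2 is spreading. -/
def StMain : Prop := ∀ (F V : Type) [Field F] [Finite F] [AddCommGroup V] [Module F V] [Finite V]
  (g : Geo V), Classical F g → (∃ M : Submodule F V, g.TS M ∧ finrank F M = 2) →
  ∀ (G : Type) [Group G] [MulAction G (Pt F g)] [MulAction.IsPretransitive G (Pt F g)],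
  (∀ (a : G) (p q : Pt F g), g.P p.1.rep q.1.rep → g.P (a • p).1.rep (a • q).1.rep) →
  NonSpreading G (Pt F g)

/-! ## 3. Modules -/

/-- AX -/
def StAx : Prop := ∀ (F V : Type) [Field F] [AddCommGroup V] [Module F V] (g : Geo V),
  Classical F g → g.Ax F

/-- FIN -/
def StFin : Prop := ∀ (F V : Type) [Field F] [Finite F] [AddCommGroup V] [Module F V] [Finite V]
  (g : Geo V), g.Ax F → ∀ r, 2 ≤ r → g.Idx F r → (∃ M : Submodule F V, g.TS M ∧ finrank F M = r) →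
  g.Good F r Set.univ →
  ∀ (G : Type) [Group G] [MulAction G (Pt F g)] [MulAction.IsPretransitive G (Pt F g)],
  (∀ (a : G) (p q : Pt F g), g.P p.1.rep q.1.rep → g.P (a • p).1.rep (a • q).1.rep) →
  NonSpreading G (Pt F g)

/-- `V` is `W` plus a hyperbolic plane with the first basis vector `e = (1, 0, 0)`. -/
structure Hyp {F V W : Type} [Field F] [AddCommGroup V] [Module F V] [AddCommGroup W] [Module F W]
    (g : Geo V) (k : Geo W) (φ : V ≃ₗ[F] F × F × W) : Prop where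
  S0 : ∀ a w, g.S (φ.symm (a, 0, w)) ↔ k.S w
  P0 : ∀ a a' w w', g.P (φ.symm (a, 0, w)) (φ.symm (a', 0, w')) ↔ k.P w w'
  Pe : ∀ x, g.P (φ.symm (1, 0, 0)) x ↔ (φ x).2.1 = 0

/-- LIFT: one hyperbolic plane more. -/
def StLift : Prop := ∀ (F V W : Type) [Field F] [Finite F] [AddCommGroup V] [Module F V] [Finite V]
  [AddCommGroup W] [Module F W] [Finite W] (g : Geo V) (k : Geo W) (φ : V ≃ₗ[F] F × F × W),
  g.Ax F → k.Ax F → Hyp g k φ → ∀ n, k.Idx F n →
  g.Idx F (n + 1) ∧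
  ((∃ M : Submodule F W, k.TS M ∧ finrank F M = n) →
    ∃ M : Submodule F V, g.TS M ∧ finrank F M = n + 1) ∧
  (k.Good F n Set.univ → g.Good F (n + 1) Set.univ)

/-- SPLIT A -/
def StSplitA : Prop := ∀ (F V : Type) [Field F] [AddCommGroup V] [Module F V]
  [FiniteDimensional F V] (B : V →ₗ[F] V →ₗ[F] F), (∀ x, B x x = 0) →
  (∀ x, (∀ y, B x y = 0) → x = 0) → ∀ e : V, e ≠ 0 →
  ∃ (W : Submodule F V) (B' : W →ₗ[F] W →ₗ[F] F) (φ : V ≃ₗ[F] F × F × W),
    (∀ x, B' x x = 0) ∧ (∀ x, (∀ y, B' x y = 0) → x = 0) ∧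
    ∀ x y, B x y = (φ x).1 * (φ y).2.1 - (φ x).2.1 * (φ y).1 + B' (φ x).2.2 (φ y).2.2

/-- SPLIT Q -/
def StSplitQ : Prop := ∀ (F V : Type) [Field F] [AddCommGroup V] [Module F V]
  [FiniteDimensional F V] (Q : QuadraticForm F V),
  (∀ x, Q x = 0 → (∀ y, QuadraticMap.polar Q x y = 0) → x = 0) → ∀ e : V, e ≠ 0 → Q e = 0 →
  ∃ (W : Submodule F V) (Q' : QuadraticForm F W) (φ : V ≃ₗ[F] F × F × W),
    (∀ x, Q' x = 0 → (∀ y, QuadraticMap.polar Q' x y = 0) → x = 0) ∧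
    ∀ x, Q x = (φ x).1 * (φ x).2.1 + Q' (φ x).2.2

/-- SPLIT H -/
def StSplitH : Prop := ∀ (F V : Type) [Field F] [Finite F] [AddCommGroup V] [Module F V]
  [FiniteDimensional F V] (σ : F →+* F), (∀ a, σ (σ a) = a) → (∃ a, σ a ≠ a) →
  ∀ (h : V →ₗ[F] V →ₛₗ[σ] F), (∀ x y, h y x = σ (h x y)) → (∀ x, (∀ y, h x y = 0) → x = 0) →
  ∀ e : V, e ≠ 0 → h e e = 0 →
  ∃ (W : Submodule F V) (h' : W →ₗ[F] W →ₛₗ[σ] F) (φ : V ≃ₗ[F] F × F × W),
    (∀ x y, h' y x = σ (h' x y)) ∧ (∀ x, (∀ y, h' x y = 0) → x = 0) ∧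
    ∀ x y, h x y = (φ x).1 * σ (φ y).2.1 + (φ x).2.1 * σ (φ y).1 + h' (φ x).2.2 (φ y).2.2

/-- Core, alternating forms, rank 2. -/
def StCoreA : Prop := ∀ (F V : Type) [Field F] [Finite F] [AddCommGroup V] [Module F V] [Finite V]
  (B : V →ₗ[F] V →ₗ[F] F) (φ : V ≃ₗ[F] F × F × F × F),
  (∀ x y, B x y = (φ x).1 * (φ y).2.1 - (φ x).2.1 * (φ y).1 +
    ((φ x).2.2.1 * (φ y).2.2.2 - (φ x).2.2.2 * (φ y).2.2.1)) →
  (altGeo B).Good F 2 Set.univ

/-- The elliptic quadric in six coordinates `(a₁, b₁, a₂, b₂, x, y)`. -/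
def form6 {F : Type} [Field F] (t n : F) (x : F × F × F × F × F × F) : F :=
  x.1 * x.2.1 + x.2.2.1 * x.2.2.2.1 +
    (x.2.2.2.2.1 ^ 2 + t * x.2.2.2.2.1 * x.2.2.2.2.2 + n * x.2.2.2.2.2 ^ 2)

/-- The parameters of the norm form `x ^ 2 + t x y + n y ^ 2`. -/
def NormPar {F : Type} [Field F] (t n : F) : Prop :=
  ((2 : F) ≠ 0 ∧ t = 0 ∧ ¬ IsSquare (-n)) ∨ ((2 : F) = 0 ∧ t = 1 ∧ ∀ u : F, n ≠ u ^ 2 + u)

/-- Core, quadratic forms, odd characteristic: `Q = a₁ b₁ + a₂ b₂ + x ^ 2 + n y ^ 2`. -/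
def StQodd : Prop := ∀ (F V : Type) [Field F] [Finite F] [AddCommGroup V] [Module F V] [Finite V]
  (n : F), (2 : F) ≠ 0 → ¬ IsSquare (-n) →
  ∀ (Q : QuadraticForm F V) (φ : V ≃ₗ[F] F × F × F × F × F × F), (∀ x, Q x = form6 0 n (φ x)) →
  (quadGeo Q).Good F 2 {x | (φ x).2.2.2.2 = 0}

/-- Core, quadratic forms, characteristic 2: `Q = a₁ b₁ + a₂ b₂ + x ^ 2 + x y + n y ^ 2`. -/
def StQeven : Prop := ∀ (F V : Type) [Field F] [Finite F] [AddCommGroup V] [Module F V] [Finite V]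
  (n : F), (2 : F) = 0 → (∀ u : F, n ≠ u ^ 2 + u) →
  ∀ (Q : QuadraticForm F V) (φ : V ≃ₗ[F] F × F × F × F × F × F), (∀ x, Q x = form6 1 n (φ x)) →
  (quadGeo Q).Good F 2 {x | (φ x).2.2.2.2 = 0}

/-- CLASS Q: anisotropic quadratic forms. -/
def StClassQ : Prop := ∀ (F E : Type) [Field F] [Finite F] [AddCommGroup E] [Module F E]
  [FiniteDimensional F E] (QE : QuadraticForm F E), (∀ z, QE z = 0 → z = 0) →
  ∃ (t n c : F) (ι : E →ₗ[F] F × F), NormPar t n ∧ c ≠ 0 ∧ Function.Injective ι ∧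
    ∀ z, QE z = c * ((ι z).1 ^ 2 + t * (ι z).1 * (ι z).2 + n * (ι z).2 ^ 2)

/-- Core, quadratic forms, rank 2. -/
def StCoreQ : Prop := ∀ (F V E : Type) [Field F] [Finite F] [AddCommGroup V] [Module F V]
  [Finite V] [AddCommGroup E] [Module F E] (Q : QuadraticForm F V) (QE : QuadraticForm F E)
  (φ : V ≃ₗ[F] F × F × F × F × E), (∀ z, QE z = 0 → z = 0) →
  (∀ x, Q x = (φ x).1 * (φ x).2.1 + ((φ x).2.2.1 * (φ x).2.2.2.1 + QE (φ x).2.2.2.2)) →
  (quadGeo Q).Good F 2 Set.univ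

/-- CLASS H: anisotropic hermitian forms. -/
def StClassH : Prop := ∀ (F E : Type) [Field F] [Finite F] [AddCommGroup E] [Module F E]
  [FiniteDimensional F E] (σ : F →+* F), (∀ a, σ (σ a) = a) → (∃ a, σ a ≠ a) →
  ∀ (h : E →ₗ[F] E →ₛₗ[σ] F), (∀ x y, h y x = σ (h x y)) → (∀ z, h z z = 0 → z = 0) →
  ∃ ι : E →ₗ[F] F, Function.Injective ι ∧ ∀ z z', h z z' = ι z * σ (ι z')

/-- HERM 5: from the elliptic quadric over the fixed field to the hermitian surface. -/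
def StH5 : Prop := ∀ (F V : Type) [Field F] [Finite F] [AddCommGroup V] [Module F V] [Finite V]
  (σ : F →+* F), (∀ a, σ (σ a) = a) → (∃ a, σ a ≠ a) →
  ∀ (h : V →ₗ[F] V →ₛₗ[σ] F) (φ : V ≃ₗ[F] F × F × F × F × F),
  (∀ x y, h x y = (φ x).1 * σ (φ y).2.1 + (φ x).2.1 * σ (φ y).1 +
    ((φ x).2.2.1 * σ (φ y).2.2.2.1 + (φ x).2.2.2.1 * σ (φ y).2.2.1 +
      (φ x).2.2.2.2 * σ (φ y).2.2.2.2)) →
  (hermGeo h).Good F 2 {x | (φ x).2.2.2.2 = 0}

/-- Core, hermitian forms, rank 2. -/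
def StCoreH : Prop := ∀ (F V E : Type) [Field F] [Finite F] [AddCommGroup V] [Module F V]
  [Finite V] [AddCommGroup E] [Module F E] (σ : F →+* F), (∀ a, σ (σ a) = a) →
  (∃ a, σ a ≠ a) → ∀ (h : V →ₗ[F] V →ₛₗ[σ] F) (hE : E →ₗ[F] E →ₛₗ[σ] F)
  (φ : V ≃ₗ[F] F × F × F × F × E), (∀ x y, h y x = σ (h x y)) → (∀ z, hE z z = 0 → z = 0) →
  (∀ x y, h x y = (φ x).1 * σ (φ y).2.1 + (φ x).2.1 * σ (φ y).1 +
    ((φ x).2.2.1 * σ (φ y).2.2.2.1 + (φ x).2.2.2.1 * σ (φ y).2.2.1 +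
      hE (φ x).2.2.2.2 (φ y).2.2.2.2)) →
  (hermGeo h).Good F 2 Set.univ

/-- ASM: the induction on the dimension (splitting off hyperbolic planes). -/
def StAsm : Prop := StAx → StLift → StSplitA → StSplitQ → StSplitH → StCoreA → StCoreQ →
  StCoreH → ∀ (F V : Type) [Field F] [Finite F] [AddCommGroup V] [Module F V] [Finite V]
  (g : Geo V), Classical F g → (∃ M : Submodule F V, g.TS M ∧ finrank F M = 2) →
  ∃ r, 2 ≤ r ∧ g.Idx F r ∧ (∃ M : Submodule F V, g.TS M ∧ finrank F M = r) ∧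
    g.Good F r Set.univ

end

end PolarSp
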